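import Pool.Agent.Helper92.TN.NFL
import Pool.Agent.Helper57.TN.GEN

/-!
# Project TN (MP_a41896_nt), packet DAL: the derivation in a flat direction

The goal is false for `|σ| = 1` (a point of order two), so `dal` has the additional hypothesis that `σ` has an
element different from `a`.
-/

set_option autoImplicit false

namespace Pool.Agent.Helper16.TN.DAL

open MvPolynomial WeierstrassCurve
open Pool.Agent.Helper29.BL Pool.Agent.Helper92.Ru Pool.Agent.Helper42.SG
open Pool.Agent.Helper60.T3 (WL IP zd)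
open Pool.Agent.Helper92.TN
open Pool.Agent.Helper57.TN.GEN (ps_sq chain alg_root)

/-- a derivation with prescribed values at algebraically independent elements -/
theorem der_ext (hF : Pool.Agent.Helper92.UQ.DERF) {κ L ι : Type} [Field κ] [CharZero κ] [Field L]
    [Algebra κ L] (y b : ι → L) (hy : AlgebraicIndependent κ y) :
    ∃ D : Derivation κ L L, ∀ i, D (y i) = b i := by
  classical
  have hinj : Function.Injective y := hy.injective
  have hind : AlgebraicIndepOn κ id (Set.range y) := hy.coe_range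
  obtain ⟨u, hsu, hu⟩ := exists_isTranscendenceBasis_superset hind
  obtain ⟨D, hD⟩ := hF κ L u ((↑) : u → L)
    (fun z => if h : ∃ i, y i = (z : L) then b h.choose else 0) hu
  refine ⟨D, fun i => ?_⟩
  have h1 := hD ⟨y i, hsu ⟨i, rfl⟩⟩
  have h2 : ∃ j, y j = ((⟨y i, hsu ⟨i, rfl⟩⟩ : u) : L) := ⟨i, rfl⟩
  simp only [dif_pos h2] at h1
  have h3 : h2.choose = i := hinj h2.choose_spec
  rw [h3] at h1
  exact h1

/-- DAL for `|σ| ≥ 2` -/
theorem dal (hG : GENI) (hF : Pool.Agent.Helper92.UQ.DERF) :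
    ∀ (K Ω₁ Ω₂ σ : Type) [Field K] [CharZero K] [Field Ω₁] [Field Ω₂] [Algebra K Ω₁]
    [Algebra Ω₁ Ω₂] [Algebra K Ω₂] [IsScalarTower K Ω₁ Ω₂] [DecidableEq Ω₂] [Fintype σ]
    [DecidableEq σ] (W : σ → Affine K) (a : σ) (g : MvPolynomial σ K)
    (x : ∀ i, (WL Ω₂ (W i)).Point) (α : σ → Ω₁), (∃ c, c ≠ a) → (∀ i, (W i).IsElliptic) →
    Irreducible g → (∀ i, degreeOf i g ≠ 0) → (∀ i, x i ≠ 0) →
    aeval (fun i => xc (x i)) g = 0 →
    AlgebraicIndependent Ω₁ (fun i : {i : σ // i ≠ a} => xc (x i)) →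
    ∑ b, algebraMap Ω₁ Ω₂ (α b) * nv W g x b = 0 →
    ∃ D : Derivation Ω₁ Ω₂ Ω₂, ∀ b, zd D (x b) = algebraMap Ω₁ Ω₂ (α b) ∧
      D (xc (x b)) = ps (x b) * algebraMap Ω₁ Ω₂ (α b) := by
  intro K Ω₁ Ω₂ σ _ _ _ _ _ _ _ _ _ _ _ W a g x α hca hW hirr hdeg hx0 hgx hind hsum
  have hc1 : CharZero Ω₁ := charZero_of_injective_algebraMap (algebraMap K Ω₁).injective
  have hgen := hG K Ω₁ Ω₂ σ a g (fun i => xc (x i)) hirr hdeg hgx hind
  -- every coordinate is transcendental over `Ω₁`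
  have htr : ∀ b, Transcendental Ω₁ (xc (x b)) := by
    intro b
    by_cases hb : b = a
    · obtain ⟨c, hc⟩ := hca
      have h1 := (hgen c).1.transcendental ⟨b, by rw [hb]; exact hc.symm⟩
      exact h1
    · exact hind.transcendental ⟨b, hb⟩
  have hps : ∀ b, ps (x b) ≠ 0 := by
    intro b h0
    have h1 := ps_sq (WL Ω₂ (W b)) (x b) (hx0 b)
    rw [h0, zero_pow (by norm_num)] at h1
    have h2 : IsAlgebraic K (xc (x b)) := alg_root (W b) _ h1.symm
    exact htr b (h2.tower_top Ω₁)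
  obtain ⟨D, hD⟩ := der_ext hF (fun i : {i : σ // i ≠ a} => xc (x i))
    (fun i : {i : σ // i ≠ a} => ps (x i) * algebraMap Ω₁ Ω₂ (α i)) hind
  have hD' : ∀ b, b ≠ a → D (xc (x b)) = ps (x b) * algebraMap Ω₁ Ω₂ (α b) := fun b hb =>
    hD ⟨b, hb⟩
  have hch := chain (D.restrictScalars K) (fun i => xc (x i)) g
  rw [hgx, map_zero] at hch
  simp only [Derivation.restrictScalars_apply] at hch
  have hsub : ∑ b, aeval (fun i => xc (x i)) (pderiv b g) *
      (D (xc (x b)) - ps (x b) * algebraMap Ω₁ Ω₂ (α b)) = 0 := by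
    have h1 : ∑ b, algebraMap Ω₁ Ω₂ (α b) * nv W g x b =
        ∑ b, aeval (fun i => xc (x i)) (pderiv b g) *
          (ps (x b) * algebraMap Ω₁ Ω₂ (α b)) := by
      refine Finset.sum_congr rfl fun b _ => ?_
      unfold nv
      ring
    rw [h1] at hsum
    simp only [mul_sub, Finset.sum_sub_distrib]
    rw [← hch, hsum, sub_zero]
  rw [Finset.sum_eq_single a (fun b _ hb => by rw [hD' b hb, sub_self, mul_zero])
    (fun h => absurd (Finset.mem_univ a) h)] at hsub
  have hDa : D (xc (x a)) = ps (x a) * algebraMap Ω₁ Ω₂ (α a) := by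
    rcases mul_eq_zero.mp hsub with h | h
    · exact absurd h (hgen a).2.1
    · exact sub_eq_zero.mp h
  have hall : ∀ b, D (xc (x b)) = ps (x b) * algebraMap Ω₁ Ω₂ (α b) := by
    intro b
    by_cases hb : b = a
    · rw [hb]
      exact hDa
    · exact hD' b hb
  refine ⟨D, fun b => ⟨?_, hall b⟩⟩
  unfold zd
  rw [hall b, mul_div_cancel_left₀ _ (hps b)]

theorem t (hG : GENI) (hF : Pool.Agent.Helper92.UQ.DERF) : Pool.Agent.Helper92.TN.DAL2 := by
  intro K Ω₁ Ω₂ σ _ _ _ _ _ _ _ _ _ _ _ W a g x α hW hirr hca hdeg hx0 hgx hind hsum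
  exact dal hG hF K Ω₁ Ω₂ σ W a g x α hca hW hirr hdeg hx0 hgx hind hsum

end Pool.Agent.Helper16.TN.DAL
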